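import Pool.Agent.Y685.SY.Stm2
import Pool.Agent.Helper831.SemiLemmas

/-!
# Project SY, job HOM: homotopies of nondegenerate 2-forms
-/

set_option autoImplicit false
set_option maxSynthPendingDepth 3

open scoped Manifold ContDiff Topology
open Set
open Pool.Agent.Y519.AS (TwoForm)
open Pool.Agent.Helper831 (coordVec)

namespace Pool.Agent.Y514.SY

open Pool.Agent.Y685.SY

section general

variable {E : Type} [NormedAddCommGroup E] [InnerProductSpace ℝ E]
  {M : Type} [TopologicalSpace M] [ChartedSpace E M]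

theorem ext_form {a b : TwoForm E M} (h : ∀ x v w, a.form x v w = b.form x v w) : a = b := by
  obtain ⟨fa, ha⟩ := a
  obtain ⟨fb, hb⟩ := b
  have : fa = fb := by
    funext x
    ext v w
    exact h x v w
  subst this
  rfl

/-- the linear path -/
noncomputable def lin (a b : TwoForm E M) (t : ℝ) : TwoForm E M where
  form x := (1 - t) • a.form x + t • b.form x
  alt x v := by
    rw [LinearMap.add_apply, LinearMap.add_apply, LinearMap.smul_apply, LinearMap.smul_apply,
      LinearMap.smul_apply, LinearMap.smul_apply, a.alt, b.alt]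
    simp

theorem lin_form (a b : TwoForm E M) (t : ℝ) (x : M) (v w : TangentSpace 𝓘(ℝ, E) x) :
    (lin a b t).form x v w = (1 - t) * a.form x v w + t * b.form x v w := rfl

theorem lin_coeff (a b : TwoForm E M) (t : ℝ) (e : OpenPartialHomeomorph M E) (y u w : E) :
    (lin a b t).coeff e y u w = (1 - t) * a.coeff e y u w + t * b.coeff e y u w := rfl

theorem trans_hom (a b c : TwoForm E M) (h1 : TwoForm.Homotopic a b)
    (h2 : TwoForm.Homotopic b c) : TwoForm.Homotopic a c := by
  obtain ⟨H, H0, H1, Hn, Hc⟩ := h1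
  obtain ⟨H', H0', H1', Hn', Hc'⟩ := h2
  refine ⟨fun t => if t ≤ 1 / 2 then H (2 * t) else H' (2 * t - 1), ?_, ?_, ?_, ?_⟩
  · have : (0 : ℝ) ≤ 1 / 2 := by norm_num
    simp only [this, if_true, mul_zero]
    exact H0
  · have : ¬ (1 : ℝ) ≤ 1 / 2 := by norm_num
    simp only [this, if_false]
    norm_num
    exact H1'
  · intro t ht
    by_cases h : t ≤ 1 / 2
    · simp only [h, if_true]
      exact Hn _ ⟨by linarith [ht.1], by linarith⟩
    · simp only [h, if_false]
      push Not at h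
      exact Hn' _ ⟨by linarith, by linarith [ht.2]⟩
  · intro e he u w
    have hcl1 : closure {q : ℝ × E | q.1 ≤ 1 / 2} ⊆ {q : ℝ × E | q.1 ≤ 1 / 2} :=
      (isClosed_le continuous_fst continuous_const).closure_subset
    have hcl2 : closure {q : ℝ × E | ¬ q.1 ≤ 1 / 2} ⊆ {q : ℝ × E | 1 / 2 ≤ q.1} := by
      refine closure_minimal ?_ (isClosed_le continuous_const continuous_fst)
      intro q hq
      have : ¬ q.1 ≤ 1 / 2 := hq
      push Not at this
      exact this.le
    have e1 : (fun q : ℝ × E => (if q.1 ≤ 1 / 2 then H (2 * q.1) else H' (2 * q.1 - 1)).coeff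
        e q.2 u w) = fun q : ℝ × E => if q.1 ≤ 1 / 2 then (H (2 * q.1)).coeff e q.2 u w
          else (H' (2 * q.1 - 1)).coeff e q.2 u w := by
      funext q
      split_ifs <;> rfl
    show ContinuousOn (fun q : ℝ × E => (if q.1 ≤ 1 / 2 then H (2 * q.1) else
      H' (2 * q.1 - 1)).coeff e q.2 u w) (Icc (0 : ℝ) 1 ×ˢ e.target)
    rw [e1]
    refine ContinuousOn.if ?_ ?_ ?_
    · rintro q ⟨_, hq⟩
      have : q.1 = 1 / 2 := frontier_le_subset_eq continuous_fst continuous_const hq
      rw [this]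
      norm_num
      rw [H1, H0']
    · refine (Hc e he u w).comp (f := fun q : ℝ × E => (2 * q.1, q.2))
        (by fun_prop) ?_
      rintro q ⟨⟨hq1, hq2⟩, hq3⟩
      have h3 : q.1 ≤ 1 / 2 := hcl1 hq3
      exact ⟨⟨by simpa using hq1.1, by show 2 * q.1 ≤ 1; linarith⟩, hq2⟩
    · refine (Hc' e he u w).comp (f := fun q : ℝ × E => (2 * q.1 - 1, q.2))
        (by fun_prop) ?_
      rintro q ⟨⟨hq1, hq2⟩, hq3⟩
      have h3 : 1 / 2 ≤ q.1 := hcl2 hq3
      exact ⟨⟨by show 0 ≤ 2 * q.1 - 1; linarith, by show 2 * q.1 - 1 ≤ 1; linarith [hq1.2]⟩, hq2⟩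

theorem interval_hom (D : unitInterval → TwoForm E M) (h : ∀ t, (D t).IsNondegenerate)
    (hc : ∀ e ∈ atlas E M, ∀ u w : E, ContinuousOn
      (fun q : unitInterval × E => (D q.1).coeff e q.2 u w) (univ ×ˢ e.target)) :
    TwoForm.Homotopic (D 0) (D 1) := by
  refine ⟨fun t => D (Set.projIcc 0 1 zero_le_one t), ?_, ?_, fun t _ => h _, ?_⟩
  · show D (Set.projIcc 0 1 zero_le_one 0) = D 0
    rw [Set.projIcc_left]
    rfl
  · show D (Set.projIcc 0 1 zero_le_one 1) = D 1
    rw [Set.projIcc_right]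
    rfl
  · intro e he u w
    refine (hc e he u w).comp
      (f := fun q : ℝ × E => ((Set.projIcc 0 1 zero_le_one q.1 : unitInterval), q.2)) ?_ ?_
    · exact ((continuous_projIcc.comp continuous_fst).prodMk continuous_snd).continuousOn
    · rintro q ⟨_, hq⟩
      exact ⟨mem_univ _, hq⟩

end general

section manifold

variable {E : Type} [NormedAddCommGroup E] [InnerProductSpace ℝ E] [FiniteDimensional ℝ E]
  {M : Type} [TopologicalSpace M] [ChartedSpace E M] [IsManifold 𝓘(ℝ, E) ∞ M]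

theorem nondeg_of_pos (τ : TwoForm E M) (h : ∀ p : M, ∃ e ∈ atlas E M, ∃ y ∈ e.target,
    e.symm y = p ∧ ∃ Q : E →L[ℝ] E, ∀ u : E, u ≠ 0 → 0 < τ.coeff e y u (Q u)) :
    τ.IsNondegenerate := by
  intro p v hv
  obtain ⟨e, he, y, hy, rfl, Q, hQ⟩ := h p
  obtain ⟨u, hu⟩ := Pool.Agent.Helper831.exists_cvec he hy v
  by_cases hu0 : u = 0
  · have h0 : mfderiv 𝓘(ℝ, E) 𝓘(ℝ, E) e.symm y (0 : TangentSpace 𝓘(ℝ, E) y) = 0 := map_zero _
    subst hu0
    exact hu.symm.trans h0
  · exfalso
    have h1 := hQ u hu0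
    have h2 : τ.coeff e y u (Q u) = τ.form (e.symm y) v (coordVec e y (Q u)) := by
      rw [← hu]
      rfl
    rw [h2, hv] at h1
    exact lt_irrefl _ h1

theorem lin_hom (a b : TwoForm E M) (ha : ∀ e ∈ atlas E M, ContinuousOn (co a e) e.target)
    (hb : ∀ e ∈ atlas E M, ContinuousOn (co b e) e.target)
    (h : ∀ p : M, ∃ e ∈ atlas E M, ∃ y ∈ e.target, e.symm y = p ∧
      ∃ Q : E →L[ℝ] E, ∀ u : E, u ≠ 0 → 0 < a.coeff e y u (Q u) ∧ 0 < b.coeff e y u (Q u)) :
    TwoForm.Homotopic a b := by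
  refine ⟨lin a b, ?_, ?_, ?_, ?_⟩
  · refine ext_form fun x v w => ?_
    rw [lin_form]
    ring
  · refine ext_form fun x v w => ?_
    rw [lin_form]
    ring
  · intro t ht
    refine nondeg_of_pos _ fun p => ?_
    obtain ⟨e, he, y, hy, hp, Q, hQ⟩ := h p
    refine ⟨e, he, y, hy, hp, Q, fun u hu => ?_⟩
    obtain ⟨h1, h2⟩ := hQ u hu
    rw [lin_coeff]
    have h3 : 0 ≤ 1 - t := by linarith [ht.2]
    rcases ht.1.eq_or_lt with h4 | h4
    · rw [← h4]
      linarith
    · have := mul_pos h4 h2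
      have := mul_nonneg h3 h1.le
      linarith
  · intro e he u w
    have key : ∀ c : TwoForm E M, ContinuousOn (co c e) e.target →
        ContinuousOn (fun q : ℝ × E => c.coeff e q.2 u w) (Icc (0 : ℝ) 1 ×ˢ e.target) := by
      intro c hc
      have h1 : ContinuousOn (fun y => co c e y u w) e.target :=
        (hc.clm_apply continuousOn_const).clm_apply continuousOn_const
      exact h1.comp (f := fun q : ℝ × E => q.2) continuous_snd.continuousOn fun q hq => hq.2
    show ContinuousOn (fun q : ℝ × E => (1 - q.1) * a.coeff e q.2 u w + q.1 * b.coeff e q.2 u w)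
      (Icc (0 : ℝ) 1 ×ˢ e.target)
    exact ((continuous_const.sub continuous_fst).continuousOn.mul (key a (ha e he))).add
      (continuous_fst.continuousOn.mul (key b (hb e he)))

end manifold

theorem t_HOM (E : Type) [NormedAddCommGroup E] [InnerProductSpace ℝ E] [FiniteDimensional ℝ E]
    (M : Type) [TopologicalSpace M] [ChartedSpace E M] [IsManifold 𝓘(ℝ, E) ∞ M] : S_HOM E M :=
  ⟨nondeg_of_pos, lin_hom, interval_hom, trans_hom⟩

end Pool.Agent.Y514.SY
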